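import Pool.Agent.Helper58_C4.Chf

/-!
# HDG: host degrees, 2-paths and special host neighbours
-/

set_option autoImplicit false

open scoped BigOperators Classical Topology
open Filter

noncomputable section

namespace Pool.Agent.C4W.H31

open Pool.Agent.C4W
open Pool.Agent.C4M (IsNbd)

/-! ## numbers -/

theorem expo (c a A : ℝ) (hc : 0 < c) (ha : 0 < a) (hA : 0 < A) :
    ∀ᶠ k : ℕ in atTop, Real.exp (-(c * (k : ℝ) ^ a)) ≤ A * (k : ℝ) ^ (-40 : ℝ) := by
  have h1 := tendsto_rpow_mul_exp_neg_mul_atTop_nhds_zero (40 / a) c hc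
  have h2 : Tendsto (fun k : ℕ => (k : ℝ) ^ a) atTop atTop :=
    (tendsto_rpow_atTop ha).comp tendsto_natCast_atTop_atTop
  have h3 := (h1.comp h2).eventually_le_const hA
  filter_upwards [h3, eventually_ge_atTop 1] with k hk hk1
  have hk0 : (0 : ℝ) < k := by exact_mod_cast hk1
  simp only [Function.comp] at hk
  have h4 : ((k : ℝ) ^ a) ^ (40 / a) = (k : ℝ) ^ (40 : ℝ) := by
    rw [← Real.rpow_mul hk0.le]
    congr 1
    field_simp
  rw [h4] at hk
  have h5 : (0 : ℝ) < (k : ℝ) ^ (-40 : ℝ) := Real.rpow_pos_of_pos hk0 _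
  have h6 : (k : ℝ) ^ (-40 : ℝ) * (k : ℝ) ^ (40 : ℝ) = 1 := by
    rw [← Real.rpow_add hk0]; norm_num
  calc Real.exp (-(c * (k : ℝ) ^ a))
      = (k : ℝ) ^ (-40 : ℝ) * ((k : ℝ) ^ (40 : ℝ) * Real.exp (-c * (k : ℝ) ^ a)) := by
        rw [← mul_assoc, h6, one_mul]
        congr 1
        ring
    _ ≤ (k : ℝ) ^ (-40 : ℝ) * A := mul_le_mul_of_nonneg_left hk h5.le
    _ = _ := mul_comm _ _

theorem small (a A : ℝ) (ha : 0 < a) (hA : 0 < A) :
    ∀ᶠ k : ℕ in atTop, (k : ℝ) ^ (-a) ≤ A :=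
  ((tendsto_rpow_neg_atTop ha).comp tendsto_natCast_atTop_atTop).eventually_le_const hA

theorem large (a A : ℝ) (ha : 0 < a) :
    ∀ᶠ k : ℕ in atTop, A ≤ (k : ℝ) ^ a :=
  ((tendsto_rpow_atTop ha).comp tendsto_natCast_atTop_atTop).eventually_ge_atTop A

/-- the numerical facts -/
structure HNum (k : ℕ) : Prop where
  one : 1 ≤ k
  n1 : (k : ℝ) ^ (-0.4 : ℝ) ≤ 1 / 1000
  n2 : Real.exp (-(0.000005 * (k : ℝ) ^ (0.4 : ℝ))) ≤ 1 / 100 * (k : ℝ) ^ (-40 : ℝ)
  n3 : Real.exp (-(0.001 * (k : ℝ) ^ (0.3 : ℝ))) ≤ 1 / 100 * (k : ℝ) ^ (-40 : ℝ)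
  n4 : Real.exp (-(1 * (k : ℝ) ^ (0.01 : ℝ))) ≤ 1 / 100 * (k : ℝ) ^ (-40 : ℝ)
  n5 : 100000 ≤ (k : ℝ) ^ (0.4525 : ℝ)
  n6 : (k : ℝ) ^ (-0.06 : ℝ) ≤ 1 / 72
  n7 : 2 ≤ (k : ℝ) ^ (0.01 : ℝ)

theorem hnum : ∃ k0 : ℕ, ∀ k, k0 ≤ k → HNum k := by
  have h : ∀ᶠ k : ℕ in atTop, HNum k := by
    filter_upwards [eventually_ge_atTop 1, small 0.4 (1 / 1000) (by norm_num) (by norm_num),
      expo 0.000005 0.4 (1 / 100) (by norm_num) (by norm_num) (by norm_num),
      expo 0.001 0.3 (1 / 100) (by norm_num) (by norm_num) (by norm_num),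
      expo 1 0.01 (1 / 100) (by norm_num) (by norm_num) (by norm_num),
      large 0.4525 100000 (by norm_num), small 0.06 (1 / 72) (by norm_num) (by norm_num),
      large 0.01 2 (by norm_num)] with k h1 h2 h3 h4 h5 h6 h7 h8
    exact ⟨h1, h2, h3, h4, h5, h6, h7, h8⟩
  exact eventually_atTop.1 h

/-- consequences for the host -/
structure HFac (k M s n : ℕ) (D z : ℝ) : Prop where
  Dpos : 0 < D
  zpos : 0 < z
  D1 : (k : ℝ) ^ (0.4 : ℝ) ≤ D
  zs : 100000 ≤ z * s
  D2 : (k : ℝ) ^ (0.3 : ℝ) ≤ D ^ 2 * z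
  zD : z * D ≤ 1 / 4
  Ds : (n : ℝ) / M * s = D

theorem hfac {c : ℝ} (hc0 : 0 < c) (hc1 : c ≤ 0.005) {k M s q n : ℕ} (hk : HNum k)
    (hp : Par k M s q) (hn : 2 ≤ n) (hn3 : n ≤ 3) :
    HFac k M s n (Dg M s n) (zet c k M n) := by
  have hk0 : (0 : ℝ) < k := by exact_mod_cast hk.one
  have hk1 : (1 : ℝ) ≤ k := by exact_mod_cast hk.one
  have hM0 : (0 : ℝ) < M := lt_of_lt_of_le (Real.rpow_pos_of_pos hk0 _) hp.Mlo
  have hn2 : (2 : ℝ) ≤ n := by exact_mod_cast hn
  have hn3' : (n : ℝ) ≤ 3 := by exact_mod_cast hn3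
  have hs0 : (0 : ℝ) < s := lt_of_lt_of_le (Real.rpow_pos_of_pos hk0 _) hp.slo
  have hslo : (k : ℝ) ^ (0.9975 : ℝ) ≤ s := by
    have h := hp.slo
    have h2 : (1 - 1 / 400 : ℝ) = 0.9975 := by norm_num
    rwa [h2] at h
  have hMi : (k : ℝ) ^ (-0.54 : ℝ) ≤ (M : ℝ)⁻¹ := by
    rw [Real.rpow_neg hk0.le]
    exact inv_anti₀ hM0 hp.Mhi
  have hMi2 : (M : ℝ)⁻¹ ≤ (k : ℝ) ^ (-0.53 : ℝ) := by
    rw [Real.rpow_neg hk0.le]
    exact inv_anti₀ (Real.rpow_pos_of_pos hk0 _) hp.Mlo
  have hsM : (k : ℝ) ^ (0.4575 : ℝ) ≤ s * (M : ℝ)⁻¹ := by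
    calc (k : ℝ) ^ (0.4575 : ℝ) = (k : ℝ) ^ (0.9975 : ℝ) * (k : ℝ) ^ (-0.54 : ℝ) := by
          rw [← Real.rpow_add hk0]; norm_num
      _ ≤ _ := mul_le_mul hslo hMi (Real.rpow_pos_of_pos hk0 _).le hs0.le
  have hD : Dg M s n = n * (s * (M : ℝ)⁻¹) := by unfold Dg; ring
  have hz : zet c k M n = 2 * n * ((k : ℝ) ^ (-c) * (M : ℝ)⁻¹) := by
    unfold zet eps; ring
  have he0 : (0 : ℝ) < (k : ℝ) ^ (-0.005 : ℝ) := Real.rpow_pos_of_pos hk0 _
  have hec : (k : ℝ) ^ (-0.005 : ℝ) ≤ (k : ℝ) ^ (-c) :=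
    Real.rpow_le_rpow_of_exponent_le hk1 (by linarith)
  have hec1 : (k : ℝ) ^ (-c) ≤ 1 := by
    rw [← Real.rpow_zero (k : ℝ)]
    exact Real.rpow_le_rpow_of_exponent_le hk1 (by linarith)
  have hMi0 : (0 : ℝ) < (M : ℝ)⁻¹ := inv_pos.2 hM0
  have hD0 : 2 * (k : ℝ) ^ (0.4575 : ℝ) ≤ Dg M s n := by
    rw [hD]
    exact mul_le_mul hn2 hsM (Real.rpow_pos_of_pos hk0 _).le (by linarith)
  have hp1 : (0 : ℝ) < (k : ℝ) ^ (0.4575 : ℝ) := Real.rpow_pos_of_pos hk0 _
  have hDpos : 0 < Dg M s n := by linarith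
  have hz0 : 4 * (k : ℝ) ^ (-0.545 : ℝ) ≤ zet c k M n := by
    rw [hz]
    have h1 : (k : ℝ) ^ (-0.545 : ℝ) ≤ (k : ℝ) ^ (-c) * (M : ℝ)⁻¹ := by
      calc (k : ℝ) ^ (-0.545 : ℝ) = (k : ℝ) ^ (-0.005 : ℝ) * (k : ℝ) ^ (-0.54 : ℝ) := by
            rw [← Real.rpow_add hk0]; norm_num
        _ ≤ _ := mul_le_mul hec hMi (Real.rpow_pos_of_pos hk0 _).le (he0.le.trans hec)
    have h2 : 0 < (k : ℝ) ^ (-0.545 : ℝ) := Real.rpow_pos_of_pos hk0 _
    nlinarith
  have hzpos : 0 < zet c k M n := by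
    have h2 : 0 < (k : ℝ) ^ (-0.545 : ℝ) := Real.rpow_pos_of_pos hk0 _
    linarith
  refine ⟨hDpos, hzpos, ?_, ?_, ?_, ?_, ?_⟩
  · have h1 : (k : ℝ) ^ (0.4 : ℝ) ≤ (k : ℝ) ^ (0.4575 : ℝ) :=
      Real.rpow_le_rpow_of_exponent_le hk1 (by norm_num)
    linarith
  · have h1 : (k : ℝ) ^ (0.4525 : ℝ) = (k : ℝ) ^ (-0.545 : ℝ) * (k : ℝ) ^ (0.9975 : ℝ) := by
      rw [← Real.rpow_add hk0]; norm_num
    have h2 : (k : ℝ) ^ (-0.545 : ℝ) * (k : ℝ) ^ (0.9975 : ℝ) ≤ zet c k M n * s := by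
      apply mul_le_mul _ hslo (Real.rpow_pos_of_pos hk0 _).le hzpos.le
      have h3 : 0 < (k : ℝ) ^ (-0.545 : ℝ) := Real.rpow_pos_of_pos hk0 _
      linarith
    have := hk.n5
    linarith
  · have h1 : (k : ℝ) ^ (0.37 : ℝ) = ((k : ℝ) ^ (0.4575 : ℝ)) ^ 2 * (k : ℝ) ^ (-0.545 : ℝ) := by
      rw [← Real.rpow_natCast, ← Real.rpow_mul hk0.le, ← Real.rpow_add hk0]; norm_num
    have h2 : (k : ℝ) ^ (0.3 : ℝ) ≤ (k : ℝ) ^ (0.37 : ℝ) :=
      Real.rpow_le_rpow_of_exponent_le hk1 (by norm_num)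
    have h3 : 0 < (k : ℝ) ^ (-0.545 : ℝ) := Real.rpow_pos_of_pos hk0 _
    have h4 : ((k : ℝ) ^ (0.4575 : ℝ)) ^ 2 ≤ Dg M s n ^ 2 :=
      pow_le_pow_left₀ hp1.le (by linarith) 2
    have h5 : ((k : ℝ) ^ (0.4575 : ℝ)) ^ 2 * (k : ℝ) ^ (-0.545 : ℝ) ≤ Dg M s n ^ 2 * zet c k M n :=
      mul_le_mul h4 (by linarith) h3.le (by positivity)
    linarith
  · have hss : (s : ℝ) ≤ k := by exact_mod_cast hp.shi
    have hcp : 0 < (k : ℝ) ^ (-c) := lt_of_lt_of_le he0 hec
    have hb : (k : ℝ) ^ (-c) * (M : ℝ)⁻¹ * (s * (M : ℝ)⁻¹) ≤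
        (k : ℝ) ^ (-0.06 : ℝ) := by
      calc (k : ℝ) ^ (-c) * (M : ℝ)⁻¹ * (s * (M : ℝ)⁻¹)
          ≤ 1 * (k : ℝ) ^ (-0.53 : ℝ) * (k * (k : ℝ) ^ (-0.53 : ℝ)) := by
            gcongr
        _ = (k : ℝ) ^ (-0.53 : ℝ) *
              ((k : ℝ) ^ (1 : ℝ) * (k : ℝ) ^ (-0.53 : ℝ)) := by rw [Real.rpow_one, one_mul]
        _ = (k : ℝ) ^ (-0.06 : ℝ) := by
            rw [← Real.rpow_add hk0, ← Real.rpow_add hk0]; norm_num
    have hb0 : 0 < (k : ℝ) ^ (-c) * (M : ℝ)⁻¹ * (s * (M : ℝ)⁻¹) := by positivity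
    have h6 := hk.n6
    have hnn : (n : ℝ) * n ≤ 9 := by nlinarith
    calc zet c k M n * Dg M s n = 2 * (n * n) *
          ((k : ℝ) ^ (-c) * (M : ℝ)⁻¹ * (s * (M : ℝ)⁻¹)) := by rw [hz, hD]; ring
      _ ≤ 2 * 9 * (1 / 72) := by
          apply mul_le_mul _ (hb.trans h6) hb0.le (by norm_num)
          linarith
      _ = 1 / 4 := by norm_num
  · unfold Dg; ring

/-! ## sets of labels -/

section sets

variable {M : ℕ} [NeZero M]

theorem card_sub (I : Finset (ZMod M)) (c : ZMod M) :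
    (Finset.univ.filter fun a : ZMod M => a - c ∈ I).card = I.card := by
  have h : (Finset.univ.filter fun a : ZMod M => a - c ∈ I) = I.image (· + c) := by
    ext a
    simp only [Finset.mem_filter, Finset.mem_univ, true_and, Finset.mem_image]
    constructor
    · intro h; exact ⟨a - c, h, by ring⟩
    · rintro ⟨b, hb, rfl⟩; simpa using hb
  rw [h, Finset.card_image_of_injective _ (add_left_injective c)]

theorem card_sub' (I : Finset (ZMod M)) (c : ZMod M) :
    (Finset.univ.filter fun a : ZMod M => c - a ∈ I).card = I.card := by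
  have h : (Finset.univ.filter fun a : ZMod M => c - a ∈ I) = I.image (fun i => c - i) := by
    ext a
    simp only [Finset.mem_filter, Finset.mem_univ, true_and, Finset.mem_image]
    constructor
    · intro h; exact ⟨c - a, h, by ring⟩
    · rintro ⟨b, hb, rfl⟩; simpa using hb
  rw [h, Finset.card_image_of_injective _ (sub_right_injective)]

end sets

section half

variable {V : Type} [Fintype V] {M : ℕ} [NeZero M] (N : V → Finset V) (O : Set (V × V))
  (I : Finset (ZMod M)) (Zp : Finset V) (x : V)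

/-- targets for the out-degree -/
def B1 (ω : V → ZMod M) (v : V) : Finset (ZMod M) :=
  if (x, v) ∈ O then Finset.univ.filter fun a => a - ω x ∈ I else ∅

/-- targets for the special in-neighbours -/
def B3 (ω : V → ZMod M) (v : V) : Finset (ZMod M) :=
  if (v, x) ∈ O ∧ v ∈ Zp then Finset.univ.filter fun a => ω x - a ∈ I else ∅

/-- out-neighbours in the host -/
def Yh (ω : V → ZMod M) : Finset V :=
  Finset.univ.filter fun y => (x, y) ∈ O ∧ ω y - ω x ∈ I

/-- targets for the 2-paths -/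
def B2 (ω : V → ZMod M) (u : V) : Finset (ZMod M) :=
  if u ∈ Zp then Finset.univ.filter fun a => ∃ y ∈ Yh O I x ω, (u, y) ∈ O ∧ ω y - a ∈ I else ∅

theorem od_eq (ω : V → ZMod M) : od (hst O I ω) x = (Yh O I x ω).card := by
  unfold od hst Yh
  apply Finset.card_bij (fun e _ => e.2)
  · rintro ⟨a, b⟩ h
    simp only [Finset.mem_filter, Finset.mem_univ, true_and] at h ⊢
    obtain ⟨⟨h1, h2⟩, rfl⟩ := h
    exact ⟨h1, h2⟩
  · rintro ⟨a, b⟩ h ⟨a', b'⟩ h' hab
    simp only [Finset.mem_filter, Finset.mem_univ, true_and] at h h' hab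
    rw [h.2, h'.2, hab]
  · intro b hb
    simp only [Finset.mem_filter, Finset.mem_univ, true_and] at hb
    refine ⟨(x, b), ?_, rfl⟩
    simp only [Finset.mem_filter, Finset.mem_univ, true_and, and_true]
    exact hb

variable {N O I Zp x}

theorem cnt1 (hN : IsNbd N) (hO : ∀ p ∈ O, p.2 ∈ N p.1) (ω : V → ZMod M) :
    cntW {x} (B1 O I x) ω = od (hst O I ω) x := by
  rw [od_eq]
  unfold cntW Yh B1
  congr 1
  ext v
  simp only [Finset.mem_filter, Finset.mem_univ, true_and, Finset.mem_singleton]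
  constructor
  · rintro ⟨h1, h2⟩
    split_ifs at h2 with h3
    · simp only [Finset.mem_filter, Finset.mem_univ, true_and] at h2
      exact ⟨h3, h2⟩
    · simp at h2
  · rintro ⟨h1, h2⟩
    refine ⟨?_, ?_⟩
    · rintro rfl
      exact hN.irr _ (hO _ h1)
    · rw [if_pos h1]
      simpa using h2

theorem mu1 (hN : IsNbd N) (hO : ∀ p ∈ O, p.2 ∈ N p.1) (ω : V → ZMod M) :
    muW {x} (B1 O I x) ω = (outN O x).card * ((I.card : ℝ) / M) := by
  unfold muW
  have h1 : ∀ v ∈ Finset.univ.filter (fun v => v ∉ ({x} : Finset V)),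
      ((B1 O I x ω v).card : ℝ) / Fintype.card (ZMod M) =
        if v ∈ outN O x then (I.card : ℝ) / M else 0 := by
    intro v _
    unfold B1 outN
    simp only [Finset.mem_filter, Finset.mem_univ, true_and]
    split_ifs with h
    · rw [card_sub, ZMod.card]
    · simp
  rw [Finset.sum_congr rfl h1, ← Finset.sum_filter, Finset.sum_const, nsmul_eq_mul,
    Finset.filter_filter]
  congr 3
  ext v
  simp only [Finset.mem_filter, Finset.mem_univ, true_and, Finset.mem_singleton, and_iff_right_iff_imp]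
  rintro h rfl
  simp only [outN, Finset.mem_filter, Finset.mem_univ, true_and] at h
  exact hN.irr _ (hO _ h)

theorem cnt3 (hN : IsNbd N) (hO : ∀ p ∈ O, p.2 ∈ N p.1) (ω : V → ZMod M) :
    cntW {x} (B3 O I Zp x) ω = ((hst O I ω).filter fun e => e.2 = x ∧ e.1 ∈ Zp).card := by
  unfold cntW hst B3
  symm
  apply Finset.card_bij (fun e _ => e.1)
  · rintro ⟨a, b⟩ h
    simp only [Finset.mem_filter, Finset.mem_univ, true_and, Finset.mem_singleton] at h ⊢
    obtain ⟨⟨h1, h2⟩, rfl, h3⟩ := h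
    refine ⟨?_, ?_⟩
    · rintro rfl
      exact hN.irr _ (hO _ h1)
    · rw [if_pos ⟨h1, h3⟩]
      simpa using h2
  · rintro ⟨a, b⟩ h ⟨a', b'⟩ h' hab
    simp only [Finset.mem_filter, Finset.mem_univ, true_and] at h h' hab
    rw [h.2.1, h'.2.1, hab]
  · intro a ha
    simp only [Finset.mem_filter, Finset.mem_univ, true_and, Finset.mem_singleton] at ha
    obtain ⟨h1, h2⟩ := ha
    split_ifs at h2 with h3
    · simp only [Finset.mem_filter, Finset.mem_univ, true_and] at h2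
      refine ⟨(a, x), ?_, rfl⟩
      simp only [Finset.mem_filter, Finset.mem_univ, true_and]
      exact ⟨⟨h3.1, h2⟩, h3.2⟩
    · simp at h2

theorem mu3 (hN : IsNbd N) (hO : ∀ p ∈ O, p.2 ∈ N p.1) (ω : V → ZMod M) :
    muW {x} (B3 O I Zp x) ω = ((inN O x) ∩ Zp).card * ((I.card : ℝ) / M) := by
  unfold muW
  have h1 : ∀ v ∈ Finset.univ.filter (fun v => v ∉ ({x} : Finset V)),
      ((B3 O I Zp x ω v).card : ℝ) / Fintype.card (ZMod M) =
        if v ∈ (inN O x) ∩ Zp then (I.card : ℝ) / M else 0 := by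
    intro v _
    unfold B3 inN
    simp only [Finset.mem_filter, Finset.mem_univ, true_and, Finset.mem_inter]
    split_ifs with h
    · rw [card_sub', ZMod.card]
    · simp
  rw [Finset.sum_congr rfl h1, ← Finset.sum_filter, Finset.sum_const, nsmul_eq_mul,
    Finset.filter_filter]
  congr 3
  ext v
  simp only [Finset.mem_filter, Finset.mem_univ, true_and, Finset.mem_singleton, and_iff_right_iff_imp]
  rintro h rfl
  simp only [inN, Finset.mem_filter, Finset.mem_univ, true_and, Finset.mem_inter] at h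
  exact hN.irr _ (hO _ h.1)

theorem cnt2 (ω : V → ZMod M) :
    cntW (insert x (N x)) (B2 O I Zp x) ω ≤ m2p (hst O I ω) Zp x := by
  unfold cntW m2p
  refine le_trans (Finset.card_le_card ?_) (Finset.card_image_le (f := Prod.snd))
  intro u hu
  simp only [Finset.mem_filter, Finset.mem_univ, true_and] at hu
  obtain ⟨h1, h2⟩ := hu
  unfold B2 at h2
  split_ifs at h2 with h3
  · simp only [Finset.mem_filter, Finset.mem_univ, true_and] at h2
    obtain ⟨y, hy, h4, h5⟩ := h2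
    simp only [Yh, Finset.mem_filter, Finset.mem_univ, true_and] at hy
    rw [Finset.mem_image]
    refine ⟨(y, u), ?_, rfl⟩
    simp only [hst, Finset.mem_filter, Finset.mem_univ, true_and]
    refine ⟨hy, ⟨h4, h5⟩, h3, ?_⟩
    rintro rfl
    exact h1 (Finset.mem_insert_self _ _)
  · simp at h2

theorem dep2 (hO : ∀ p ∈ O, p.2 ∈ N p.1) (ω ω' : V → ZMod M)
    (h : ∀ v ∈ insert x (N x), ω v = ω' v) : B2 O I Zp x ω = B2 O I Zp x ω' := by
  have hx : ω x = ω' x := h x (Finset.mem_insert_self _ _)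
  have hY : ∀ y, (x, y) ∈ O → ω y = ω' y := fun y hy => h y (Finset.mem_insert_of_mem (hO _ hy))
  funext u
  unfold B2
  split_ifs with hu
  · ext a
    simp only [Yh, Finset.mem_filter, Finset.mem_univ, true_and]
    constructor
    · rintro ⟨y, ⟨h1, h2⟩, h3, h4⟩
      exact ⟨y, ⟨h1, by rw [← hY y h1, ← hx]; exact h2⟩, h3, by rw [← hY y h1]; exact h4⟩
    · rintro ⟨y, ⟨h1, h2⟩, h3, h4⟩
      exact ⟨y, ⟨h1, by rw [hY y h1, hx]; exact h2⟩, h3, by rw [hY y h1]; exact h4⟩
  · rfl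

/-- the size of the target set of a vertex outside `N[x]` -/
theorem card_B2 (hN : IsNbd N) (hO : ∀ p ∈ O, p.2 ∈ N p.1) (ω : V → ZMod M) (u : V)
    (hu : u ∉ insert x (N x)) : (B2 O I Zp x ω u).card =
      ∑ y ∈ Yh O I x ω, if (u, y) ∈ O ∧ u ∈ Zp then I.card else 0 := by
  unfold B2
  by_cases hz : u ∈ Zp
  · simp only [hz, if_true, and_true]
    by_cases he : ∃ y ∈ Yh O I x ω, (u, y) ∈ O
    · obtain ⟨y, hy, hyu⟩ := he
      have hux : u ≠ x := fun h => hu (h ▸ Finset.mem_insert_self _ _)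
      have huniq : ∀ y' ∈ Yh O I x ω, (u, y') ∈ O → y' = y := by
        intro y' hy' hyu'
        have h1 := Finset.card_le_one.1 (hN.c4 u x hux)
        simp only [Yh, Finset.mem_filter, Finset.mem_univ, true_and] at hy hy'
        exact h1 y' (Finset.mem_inter.2 ⟨hO _ hyu', hO _ hy'.1⟩) y
          (Finset.mem_inter.2 ⟨hO _ hyu, hO _ hy.1⟩)
      have h2 : (Finset.univ.filter fun a => ∃ y ∈ Yh O I x ω, (u, y) ∈ O ∧ ω y - a ∈ I) =
          Finset.univ.filter fun a : ZMod M => ω y - a ∈ I := by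
        ext a
        simp only [Finset.mem_filter, Finset.mem_univ, true_and]
        constructor
        · rintro ⟨y', h3, h4, h5⟩
          rw [huniq y' h3 h4] at h5
          exact h5
        · intro h; exact ⟨y, hy, hyu, h⟩
      rw [h2, card_sub', ← Finset.sum_filter, Finset.sum_const, smul_eq_mul]
      have h3 : (Yh O I x ω).filter (fun y => (u, y) ∈ O) = {y} := by
        ext y'
        simp only [Finset.mem_filter, Finset.mem_singleton]
        constructor
        · rintro ⟨h4, h5⟩; exact huniq y' h4 h5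
        · rintro rfl; exact ⟨hy, hyu⟩
      rw [h3, Finset.card_singleton, one_mul]
    · push Not at he
      have h2 : (Finset.univ.filter fun a => ∃ y ∈ Yh O I x ω, (u, y) ∈ O ∧ ω y - a ∈ I) = ∅ := by
        ext a
        simp only [Finset.mem_filter, Finset.mem_univ, true_and, Finset.notMem_empty, iff_false]
        rintro ⟨y', h3, h4, h5⟩
        exact he y' h3 h4
      rw [h2, Finset.card_empty]
      symm
      apply Finset.sum_eq_zero
      intro y hy
      rw [if_neg (he y hy)]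
  · simp [hz]

/-- the vertices outside `N[x]` which are special and point to `y` -/
def cy (N : V → Finset V) (O : Set (V × V)) (Zp : Finset V) (x y : V) : ℕ :=
  (Finset.univ.filter fun u => u ∉ insert x (N x) ∧ (u, y) ∈ O ∧ u ∈ Zp).card

theorem mu2 (hN : IsNbd N) (hO : ∀ p ∈ O, p.2 ∈ N p.1) (ω : V → ZMod M) :
    muW (insert x (N x)) (B2 O I Zp x) ω =
      ((I.card : ℝ) / M) * ∑ y ∈ Yh O I x ω, (cy N O Zp x y : ℝ) := by
  unfold muW
  have h1 : ∀ u ∈ Finset.univ.filter (fun u => u ∉ insert x (N x)),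
      ((B2 O I Zp x ω u).card : ℝ) / Fintype.card (ZMod M) =
        ∑ y ∈ Yh O I x ω, if (u, y) ∈ O ∧ u ∈ Zp then (I.card : ℝ) / M else 0 := by
    intro u hu
    simp only [Finset.mem_filter, Finset.mem_univ, true_and] at hu
    rw [card_B2 hN hO ω u hu, ZMod.card]
    push_cast
    rw [Finset.sum_div]
    refine Finset.sum_congr rfl fun y _ => ?_
    split_ifs <;> simp
  rw [Finset.sum_congr rfl h1, Finset.sum_comm, Finset.mul_sum]
  refine Finset.sum_congr rfl fun y _ => ?_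
  rw [← Finset.sum_filter, Finset.sum_const, nsmul_eq_mul, Finset.filter_filter, mul_comm]
  rfl

theorem cy_le (y : V) : cy N O Zp x y ≤ ((inN O y) ∩ Zp).card := by
  unfold cy
  apply Finset.card_le_card
  intro u hu
  simp only [Finset.mem_filter, Finset.mem_univ, true_and] at hu
  simp only [inN, Finset.mem_inter, Finset.mem_filter, Finset.mem_univ, true_and]
  exact ⟨hu.2.1, hu.2.2⟩

theorem le_cy (hN : IsNbd N) (hO : ∀ p ∈ O, p.2 ∈ N p.1) (y : V) (hy : (x, y) ∈ O) :
    ((inN O y) ∩ Zp).card ≤ cy N O Zp x y + 2 := by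
  have h1 : (inN O y) ∩ Zp ⊆ (Finset.univ.filter fun u => u ∉ insert x (N x) ∧ (u, y) ∈ O ∧
      u ∈ Zp) ∪ ({x} ∪ (N y ∩ N x)) := by
    intro u hu
    simp only [inN, Finset.mem_inter, Finset.mem_filter, Finset.mem_univ, true_and] at hu
    by_cases h : u ∈ insert x (N x)
    · apply Finset.mem_union_right
      rcases Finset.mem_insert.1 h with h | h
      · exact Finset.mem_union_left _ (by simp [h])
      · apply Finset.mem_union_right
        exact Finset.mem_inter.2 ⟨hN.symm _ _ (hO _ hu.1), h⟩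
    · apply Finset.mem_union_left
      simp only [Finset.mem_filter, Finset.mem_univ, true_and]
      exact ⟨h, hu⟩
  have hyx : y ≠ x := by
    rintro rfl
    exact hN.irr _ (hO _ hy)
  calc ((inN O y) ∩ Zp).card ≤ _ := Finset.card_le_card h1
    _ ≤ _ := Finset.card_union_le _ _
    _ ≤ cy N O Zp x y + (1 + 1) := by
        apply Nat.add_le_add le_rfl
        exact (Finset.card_union_le _ _).trans
          (Nat.add_le_add (Finset.card_singleton _).le (hN.c4 y x hyx))
    _ = _ := by ring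

end half

/-- one half of `HGood` -/
structure HHalf {V : Type} [Fintype V] {M : ℕ} (c : ℝ) (k s : ℕ) (O : Set (V × V)) (I : Finset (ZMod M))
    (Zp : Finset V) (h : V → ZMod M) (x : V) : Prop where
  dp : (od (hst O I h) x : ℝ) ≤ 2 * Dg M s I.card
  mp : 9 / 10 * (Dg M s I.card ^ 2 * zet c k M I.card) ≤ m2p (hst O I h) Zp x
  kp : (((hst O I h).filter fun e => e.2 = x ∧ e.1 ∈ Zp).card : ℝ) ≤ KK k

theorem half_bound (hC : CHFStmt) {c : ℝ} (hc0 : 0 < c) (hc1 : c ≤ 0.005) {k M s q : ℕ} [NeZero M] (hk : HNum k) (hp : Par k M s q)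
    {V : Type} [Fintype V] (N : V → Finset V) (hN : IsNbd N) (O : Set (V × V))
    (hO : ∀ p ∈ O, p.2 ∈ N p.1)
    (hout : ∀ x, |((outN O x).card : ℝ) - s| ≤ s * (k : ℝ) ^ (-0.4 : ℝ))
    (hin : ∀ x, |((inN O x).card : ℝ) - s| ≤ s * (k : ℝ) ^ (-0.4 : ℝ))
    (I : Finset (ZMod M)) (hI : 2 ≤ I.card) (hI3 : I.card ≤ 3) (Zp : Finset V)
    (hZ : ∀ x, |(((inN O x) ∩ Zp).card : ℝ) - zet c k M I.card * (inN O x).card| ≤
      zet c k M I.card * s / 8000) (x : V) :
    ((Finset.univ.filter fun h : V → ZMod M => ¬ HHalf c k s O I Zp h x).card : ℝ) ≤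
      1 / 2 * (k : ℝ) ^ (-40 : ℝ) * (M : ℝ) ^ Fintype.card V := by
  have hf := hfac hc0 hc1 hk hp hI hI3
  set D := Dg M s I.card with hD
  set z := zet c k M I.card with hz
  have hDpos := hf.Dpos
  have hzpos := hf.zpos
  have hk0 : (0 : ℝ) < k := by exact_mod_cast hk.one
  have hs0 : (0 : ℝ) ≤ s := Nat.cast_nonneg s
  have hMpos : (0 : ℝ) < M := by exact_mod_cast Nat.pos_of_ne_zero (NeZero.ne M)
  have hc : (Fintype.card (ZMod M) : ℝ) = M := by rw [ZMod.card]
  have hn1 := hk.n1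
  have hs1 : (s : ℝ) * (k : ℝ) ^ (-0.4 : ℝ) ≤ s * (1 / 1000) :=
    mul_le_mul_of_nonneg_left hn1 hs0
  have hmul : ∀ t : ℝ, t * ((I.card : ℝ) / M) * s = t * D := by
    intro t
    rw [mul_assoc, hf.Ds]
  have hr0 : 0 ≤ (I.card : ℝ) / M := by positivity
  -- the out-degree
  set P1 : Finset (V → ZMod M) := Finset.univ.filter fun h =>
    0.005 * D ≤ |(od (hst O I h) x : ℝ) - (outN O x).card * ((I.card : ℝ) / M)| with hP1
  have hmuD : |((outN O x).card : ℝ) * ((I.card : ℝ) / M) - D| ≤ 1 / 1000 * D := by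
    have h1 : ((outN O x).card : ℝ) * ((I.card : ℝ) / M) - D =
        (((outN O x).card : ℝ) - s) * ((I.card : ℝ) / M) := by
      rw [← hf.Ds]; ring
    rw [h1, abs_mul, abs_of_nonneg hr0]
    calc |((outN O x).card : ℝ) - s| * ((I.card : ℝ) / M)
        ≤ (s * (1 / 1000)) * ((I.card : ℝ) / M) :=
          mul_le_mul_of_nonneg_right ((hout x).trans hs1) hr0
      _ = 1 / 1000 * D := by rw [← hf.Ds]; ring
  have hb1 : (P1.card : ℝ) ≤ 2 * (1 / 100 * (k : ℝ) ^ (-40 : ℝ)) * (M : ℝ) ^ Fintype.card V := by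
    have h1 := (hC V (ZMod M) {x} (B1 O I x) (fun ω ω' h => by
      funext v
      unfold B1
      rw [h x (Finset.mem_singleton_self x)]) P1).2 (1.1 * D) (0.005 * D) (by linarith)
      (by linarith) (by linarith) (by
        intro ω hω
        rw [hP1, Finset.mem_filter] at hω
        rw [mu1 hN hO, cnt1 hN hO]
        refine ⟨?_, hω.2⟩
        have := (abs_le.1 hmuD).2
        linarith)
    rw [hc] at h1
    refine h1.trans (mul_le_mul_of_nonneg_right ?_ (by positivity))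
    apply mul_le_mul_of_nonneg_left _ (by norm_num)
    refine le_trans (Real.exp_le_exp.2 (neg_le_neg ?_)) hk.n2
    have h2 : (0.005 * D) ^ 2 / (4 * (1.1 * D)) = 0.005 ^ 2 / 4.4 * D := by
      field_simp
      norm_num
    rw [h2]
    have h3 := hf.D1
    have h4 : (0 : ℝ) ≤ (k : ℝ) ^ (0.4 : ℝ) := (Real.rpow_pos_of_pos hk0 _).le
    nlinarith
  -- special in-neighbours
  set P3 : Finset (V → ZMod M) := Finset.univ.filter fun h =>
    KK k < ((hst O I h).filter fun e => e.2 = x ∧ e.1 ∈ Zp).card with hP3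
  have hzin : ∀ y, (((inN O y) ∩ Zp).card : ℝ) ≤ 1.002 * (z * s) ∧
      0.998 * (z * s) + 2 ≤ (((inN O y) ∩ Zp).card : ℝ) := by
    intro y
    have h1 := abs_le.1 (hZ y)
    have h2 := abs_le.1 ((hin y).trans hs1)
    have h3 : z * ((inN O y).card : ℝ) ≤ z * (s * 1.001) :=
      mul_le_mul_of_nonneg_left (by linarith) hzpos.le
    have h4 : z * (s * 0.999) ≤ z * ((inN O y).card : ℝ) :=
      mul_le_mul_of_nonneg_left (by linarith) hzpos.le
    have h5 := hf.zs
    constructor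
    · nlinarith [h1.2]
    · nlinarith [h1.1]
  have hb3 : (P3.card : ℝ) ≤ 8 * (1 / 100 * (k : ℝ) ^ (-40 : ℝ)) * (M : ℝ) ^ Fintype.card V := by
    have h1 := (hC V (ZMod M) {x} (B3 O I Zp x) (fun ω ω' h => by
      funext v
      unfold B3
      rw [h x (Finset.mem_singleton_self x)]) P3).1 ((k : ℝ) ^ (0.01 : ℝ) - 1)
      (by have := hk.n7; linarith) (by
        intro ω hω
        rw [hP3, Finset.mem_filter] at hω
        rw [mu3 hN hO, cnt3 hN hO]
        have h2 := hω.2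
        unfold KK at h2
        have h3 : (((inN O x) ∩ Zp).card : ℝ) * ((I.card : ℝ) / M) ≤ 1.002 * (z * D) := by
          calc (((inN O x) ∩ Zp).card : ℝ) * ((I.card : ℝ) / M)
              ≤ (1.002 * (z * s)) * ((I.card : ℝ) / M) :=
                mul_le_mul_of_nonneg_right (hzin x).1 hr0
            _ = 1.002 * (z * D) := by rw [← hf.Ds]; ring
        have h4 := hf.zD
        linarith)
    rw [hc] at h1
    refine h1.trans (mul_le_mul_of_nonneg_right ?_ (by positivity))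
    have h2 : Real.exp (-((k : ℝ) ^ (0.01 : ℝ) - 1)) =
        Real.exp 1 * Real.exp (-(1 * (k : ℝ) ^ (0.01 : ℝ))) := by
      rw [← Real.exp_add]; congr 1; ring
    rw [h2]
    have h3 : Real.exp 1 ≤ 8 := by
      have := Real.exp_one_lt_d9
      linarith
    exact mul_le_mul h3 hk.n4 (Real.exp_pos _).le (by norm_num)
  -- 2-paths
  set P2 : Finset (V → ZMod M) := Finset.univ.filter fun h =>
    |(od (hst O I h) x : ℝ) - D| ≤ 0.01 * D ∧
      (m2p (hst O I h) Zp x : ℝ) < 9 / 10 * (D ^ 2 * z) with hP2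
  have hb2 : (P2.card : ℝ) ≤ 2 * (1 / 100 * (k : ℝ) ^ (-40 : ℝ)) * (M : ℝ) ^ Fintype.card V := by
    have hD2 : 0 < D ^ 2 * z := by positivity
    have h1 := (hC V (ZMod M) (insert x (N x)) (B2 O I Zp x) (fun ω ω' h => dep2 hO ω ω' h)
      P2).2 (1.02 * (D ^ 2 * z)) (0.08 * (D ^ 2 * z)) (by linarith)
      (by linarith) (by linarith) (by
        intro ω hω
        rw [hP2, Finset.mem_filter] at hω
        obtain ⟨-, h2, h3⟩ := hω
        rw [mu2 hN hO]
        have h4 : (cntW (insert x (N x)) (B2 O I Zp x) ω : ℝ) ≤ m2p (hst O I ω) Zp x := by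
          exact_mod_cast cnt2 ω
        rw [od_eq] at h2
        have h2' := abs_le.1 h2
        have hup : ∑ y ∈ Yh O I x ω, (cy N O Zp x y : ℝ) ≤
            (Yh O I x ω).card * (1.002 * (z * s)) := by
          rw [← nsmul_eq_mul]
          apply Finset.sum_le_card_nsmul
          intro y _
          have : (cy N O Zp x y : ℝ) ≤ ((inN O y) ∩ Zp).card := by exact_mod_cast cy_le y
          exact this.trans (hzin y).1
        have hlo : (Yh O I x ω).card * (0.998 * (z * s)) ≤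
            ∑ y ∈ Yh O I x ω, (cy N O Zp x y : ℝ) := by
          rw [← nsmul_eq_mul]
          apply Finset.card_nsmul_le_sum
          intro y hy
          simp only [Yh, Finset.mem_filter, Finset.mem_univ, true_and] at hy
          have : (((inN O y) ∩ Zp).card : ℝ) ≤ cy N O Zp x y + 2 := by
            exact_mod_cast le_cy hN hO y hy.1
          linarith [(hzin y).2]
        have hup2 : (I.card : ℝ) / M * ∑ y ∈ Yh O I x ω, (cy N O Zp x y : ℝ) ≤
            (Yh O I x ω).card * (1.002 * (z * D)) := by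
          calc (I.card : ℝ) / M * ∑ y ∈ Yh O I x ω, (cy N O Zp x y : ℝ)
              ≤ (I.card : ℝ) / M * ((Yh O I x ω).card * (1.002 * (z * s))) :=
                mul_le_mul_of_nonneg_left hup hr0
            _ = _ := by rw [← hf.Ds]; ring
        have hlo2 : (Yh O I x ω).card * (0.998 * (z * D)) ≤
            (I.card : ℝ) / M * ∑ y ∈ Yh O I x ω, (cy N O Zp x y : ℝ) := by
          calc (Yh O I x ω).card * (0.998 * (z * D))
              = (I.card : ℝ) / M * ((Yh O I x ω).card * (0.998 * (z * s))) := by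
                rw [← hf.Ds]; ring
            _ ≤ _ := mul_le_mul_of_nonneg_left hlo hr0
        have hzD : 0 < z * D := by positivity
        have hY1 : ((Yh O I x ω).card : ℝ) * (1.002 * (z * D)) ≤ 1.01 * D * (1.002 * (z * D)) :=
          mul_le_mul_of_nonneg_right (by linarith) (by linarith)
        have hY2 : 0.99 * D * (0.998 * (z * D)) ≤ ((Yh O I x ω).card : ℝ) * (0.998 * (z * D)) :=
          mul_le_mul_of_nonneg_right (by linarith) (by linarith)
        have e1 : 1.01 * D * (1.002 * (z * D)) = 1.01202 * (D ^ 2 * z) := by ring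
        have e2 : 0.99 * D * (0.998 * (z * D)) = 0.98802 * (D ^ 2 * z) := by ring
        refine ⟨by linarith, ?_⟩
        rw [abs_sub_comm]
        refine le_trans ?_ (le_abs_self _)
        linarith)
    rw [hc] at h1
    refine h1.trans (mul_le_mul_of_nonneg_right ?_ (by positivity))
    apply mul_le_mul_of_nonneg_left _ (by norm_num)
    refine le_trans (Real.exp_le_exp.2 (neg_le_neg ?_)) hk.n3
    have h2 : (0.08 * (D ^ 2 * z)) ^ 2 / (4 * (1.02 * (D ^ 2 * z))) =
        0.08 ^ 2 / 4.08 * (D ^ 2 * z) := by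
      field_simp
      norm_num
    rw [h2]
    have h3 := hf.D2
    have h4 : (0 : ℝ) ≤ (k : ℝ) ^ (0.3 : ℝ) := (Real.rpow_pos_of_pos hk0 _).le
    nlinarith
  -- union
  have hsub : (Finset.univ.filter fun h : V → ZMod M => ¬ HHalf c k s O I Zp h x) ⊆
      P1 ∪ P2 ∪ P3 := by
    intro h hh
    by_contra hcon
    simp only [Finset.mem_union, not_or] at hcon
    obtain ⟨⟨c1, c2⟩, c3⟩ := hcon
    rw [Finset.mem_filter] at hh
    apply hh.2
    rw [hP1, Finset.mem_filter, not_and, not_le] at c1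
    rw [hP2, Finset.mem_filter, not_and, not_and, not_lt] at c2
    rw [hP3, Finset.mem_filter, not_and, not_lt] at c3
    have c1' := abs_lt.1 (c1 (Finset.mem_univ _))
    have hm' := abs_le.1 hmuD
    have hod : |(od (hst O I h) x : ℝ) - D| ≤ 0.01 * D := by
      rw [abs_le]
      constructor <;> linarith [c1'.1, c1'.2, hm'.1, hm'.2]
    refine ⟨?_, c2 (Finset.mem_univ _) hod, c3 (Finset.mem_univ _)⟩
    have := (abs_le.1 hod).2
    rw [← hD]
    linarith
  have hcard : ((Finset.univ.filter fun h : V → ZMod M => ¬ HHalf c k s O I Zp h x).card : ℝ) ≤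
      P1.card + P2.card + P3.card := by
    have h1 := Finset.card_le_card hsub
    have h2 := Finset.card_union_le (P1 ∪ P2) P3
    have h3 := Finset.card_union_le P1 P2
    exact_mod_cast (h1.trans (h2.trans (Nat.add_le_add_right h3 _)))
  refine hcard.trans ?_
  have hpos : 0 ≤ (k : ℝ) ^ (-40 : ℝ) * (M : ℝ) ^ Fintype.card V := by positivity
  nlinarith

theorem hdg (hC : CHFStmt) : HDGStmt := by
  intro c hc0 hc1
  obtain ⟨k0, hk0⟩ := hnum
  refine ⟨k0, ?_⟩
  intro k M s q _ _ hk hp V _ N hN O hO hR I hI hI3 Zp Zm hZ x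
  have hkn := hk0 k hk
  -- the reversed data
  set O' : Set (V × V) := Prod.swap ⁻¹' O with hO'
  have hout' : ∀ y, outN O' y = inN O y := by
    intro y; ext v; simp [outN, inN, hO']
  have hin' : ∀ y, inN O' y = outN O y := by
    intro y; ext v; simp [outN, inN, hO']
  have h1 := half_bound hC hc0 hc1 hkn hp N hN O hO (fun y => (hR y).1) (fun y => (hR y).2) I hI hI3 Zp
    (fun y => (hZ y).2) x
  have h2 := half_bound hC hc0 hc1 hkn hp N hN O' (fun p hp => hN.symm _ _ (hO _ hp))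
    (fun y => by rw [hout']; exact (hR y).2) (fun y => by rw [hin']; exact (hR y).1) I hI hI3 Zm
    (fun y => by rw [hin']; exact (hZ y).1) x
  -- reversal of the host
  have hhst : ∀ (h : V → ZMod M) (a b : V), (a, b) ∈ hst O' I (-h) ↔ (b, a) ∈ hst O I h := by
    intro h a b
    simp only [hst, Finset.mem_filter, Finset.mem_univ, true_and, hO', Set.mem_preimage,
      Prod.swap_prod_mk, Pi.neg_apply]
    have : -h b - -h a = h a - h b := by ring
    rw [this]
  have hsub : (Finset.univ.filter fun h : V → ZMod M => ¬ HGood c k M s O I Zp Zm h x) ⊆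
      (Finset.univ.filter fun h : V → ZMod M => ¬ HHalf c k s O I Zp h x) ∪
      (Finset.univ.filter fun h : V → ZMod M => ¬ HHalf c k s O' I Zm h x).image (fun h => -h) := by
    intro h hh
    by_contra hcon
    rw [Finset.mem_union, not_or] at hcon
    obtain ⟨c1, c2⟩ := hcon
    rw [Finset.mem_filter] at hh
    apply hh.2
    rw [Finset.mem_filter, not_and, not_not] at c1
    have g1 := c1 (Finset.mem_univ _)
    have g2 : HHalf c k s O' I Zm (-h) x := by
      by_contra h3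
      apply c2
      rw [Finset.mem_image]
      exact ⟨-h, by rw [Finset.mem_filter]; exact ⟨Finset.mem_univ _, h3⟩, neg_neg h⟩
    refine ⟨g1.dp, ?_, g1.mp, ?_, g1.kp, ?_⟩
    · have e : idg (hst O I h) x = od (hst O' I (-h)) x := by
        unfold idg od
        apply Finset.card_bij (fun e _ => e.swap)
        · rintro ⟨a, b⟩ he
          simp only [Finset.mem_filter, Prod.swap_prod_mk] at he ⊢
          exact ⟨(hhst h b a).2 he.1, he.2⟩
        · rintro ⟨a, b⟩ _ ⟨a', b'⟩ _ hab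
          exact Prod.swap_injective hab
        · rintro ⟨a, b⟩ he
          simp only [Finset.mem_filter] at he
          refine ⟨(b, a), ?_, rfl⟩
          simp only [Finset.mem_filter]
          exact ⟨(hhst h a b).1 he.1, he.2⟩
      rw [e]; exact g2.dp
    · have e : m2m (hst O I h) Zm x = m2p (hst O' I (-h)) Zm x := by
        unfold m2m m2p
        congr 1
        ext ⟨a, b⟩
        simp only [Finset.mem_filter, Finset.mem_univ, true_and]
        rw [hhst, hhst]
      rw [e]; exact g2.mp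
    · have e : ((hst O I h).filter fun e => e.1 = x ∧ e.2 ∈ Zm).card =
          ((hst O' I (-h)).filter fun e => e.2 = x ∧ e.1 ∈ Zm).card := by
        apply Finset.card_bij (fun e _ => e.swap)
        · rintro ⟨a, b⟩ he
          simp only [Finset.mem_filter, Prod.swap_prod_mk] at he ⊢
          exact ⟨(hhst h b a).2 he.1, he.2⟩
        · rintro ⟨a, b⟩ _ ⟨a', b'⟩ _ hab
          exact Prod.swap_injective hab
        · rintro ⟨a, b⟩ he
          simp only [Finset.mem_filter] at he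
          refine ⟨(b, a), ?_, rfl⟩
          simp only [Finset.mem_filter]
          exact ⟨(hhst h a b).1 he.1, he.2⟩
      rw [e]; exact g2.kp
  have hcard : ((Finset.univ.filter fun h : V → ZMod M => ¬ HGood c k M s O I Zp Zm h x).card : ℝ)
      ≤ (Finset.univ.filter fun h : V → ZMod M => ¬ HHalf c k s O I Zp h x).card +
        (Finset.univ.filter fun h : V → ZMod M => ¬ HHalf c k s O' I Zm h x).card := by
    have h3 := Finset.card_le_card hsub
    have h4 := Finset.card_union_le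
      (Finset.univ.filter fun h : V → ZMod M => ¬ HHalf c k s O I Zp h x)
      ((Finset.univ.filter fun h : V → ZMod M => ¬ HHalf c k s O' I Zm h x).image (fun h => -h))
    have h5 : ((Finset.univ.filter fun h : V → ZMod M => ¬ HHalf c k s O' I Zm h x).image
        (fun h => -h)).card ≤
        (Finset.univ.filter fun h : V → ZMod M => ¬ HHalf c k s O' I Zm h x).card :=
      Finset.card_image_le
    exact_mod_cast (h3.trans (h4.trans (Nat.add_le_add_left h5 _)))
  refine hcard.trans ?_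
  calc _ ≤ 1 / 2 * (k : ℝ) ^ (-40 : ℝ) * (M : ℝ) ^ Fintype.card V +
        1 / 2 * (k : ℝ) ^ (-40 : ℝ) * (M : ℝ) ^ Fintype.card V := add_le_add h1 h2
    _ = _ := by ring

end Pool.Agent.C4W.H31
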