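import Pool.Agent.Helper53_C4W.Stm

/-!
# LOC: the weights and the errors depend on the data near a vertex only
-/

set_option autoImplicit false

open scoped BigOperators Classical

noncomputable section

namespace Pool.Agent.C4W.H31

open Pool.Agent.C4W

variable {V : Type} [Fintype V] {M : ℕ}

theorem agreeN_agree {D D' : Dat V M} {h h' : V → ZMod M} {n : ℕ} {x : V}
    (H : AgreeN D D' h h' n x) : Agree D D' h h' x := by
  cases n with
  | zero => exact H
  | succ n => exact H.1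

theorem agreeN_pred {D D' : Dat V M} {h h' : V → ZMod M} (n : ℕ) : ∀ {x : V},
    AgreeN D D' h h' (n + 1) x → AgreeN D D' h h' n x := by
  induction n with
  | zero => intro x H; exact H.1
  | succ n ih => intro x H; exact ⟨H.1, fun y hy => ih (H.2 y hy)⟩

theorem agreeN_mono {D D' : Dat V M} {h h' : V → ZMod M} {m n : ℕ} (hmn : m ≤ n) {x : V}
    (H : AgreeN D D' h h' n x) : AgreeN D D' h h' m x := by
  induction n, hmn using Nat.le_induction with
  | base => exact H
  | succ n _ ih => exact ih (agreeN_pred n H)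

theorem agree_rev {D D' : Dat V M} {h h' : V → ZMod M} {x : V}
    (H : Agree D D' h h' x) : Agree D.rev D'.rev (-h) (-h') x where
  s := H.s
  I := H.I
  i1 := H.i1
  i2 := H.i2
  R := fun y => ⟨(H.R y).2, (H.R y).1⟩
  O := fun y => ⟨(H.O y).2, (H.O y).1⟩
  β := fun y => ⟨(H.β y).2, (H.β y).1⟩
  f := ⟨H.f.2, H.f.1⟩
  h := by simp [H.h]

theorem agreeN_rev {D D' : Dat V M} {h h' : V → ZMod M} (n : ℕ) : ∀ {x : V},
    AgreeN D D' h h' n x → AgreeN D.rev D'.rev (-h) (-h') n x := by
  induction n with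
  | zero => intro x H; exact agree_rev H
  | succ n ih =>
    intro x H
    refine ⟨agree_rev H.1, fun y hy => ih (H.2 y ?_)⟩
    rcases hy with hy | hy | hy | hy
    · exact Or.inr (Or.inl hy)
    · exact Or.inl hy
    · exact Or.inr (Or.inr (Or.inr hy))
    · exact Or.inr (Or.inr (Or.inl hy))

/-- a field which depends on the data within distance `n` -/
def Lc (n : ℕ) (F : Fld V M) : Prop :=
  ∀ (D D' : Dat V M) (h h' : V → ZMod M) (x : V), AgreeN D D' h h' n x →
    ∀ (a : ZMod M) (A : Finset V), F D h x a A = F D' h' x a A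

theorem Lc.mono {m n : ℕ} {F : Fld V M} (H : Lc m F) (hmn : m ≤ n) : Lc n F :=
  fun D D' h h' x hx => H D D' h h' x (agreeN_mono hmn hx)

section basics

variable {D D' : Dat V M} {h h' : V → ZMod M} {x : V}

theorem Z_eq (H : Agree D D' h h' x) : D.Z = D'.Z := by
  simp [Dat.Z, H.s, H.I]

theorem rho_eq (H : Agree D D' h h' x) : D.rho = D'.rho := by
  simp [Dat.rho, H.i1, H.i2]

theorem outO_eq (H : Agree D D' h h' x) : outN D.O x = outN D'.O x := by
  ext y; simp [outN, (H.O y).1]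

theorem outR_eq (H : Agree D D' h h' x) : outN D.R x = outN D'.R x := by
  ext y; simp [outN, (H.R y).1]

theorem kap_eq (H : Agree D D' h h' x) (r : ℕ) : D.kap r x = D'.kap r x := by
  simp [Dat.kap, H.s, outO_eq H]

theorem rkap_eq (H : Agree D D' h h' x) (r : ℕ) : D.rev.kap r x = D'.rev.kap r x :=
  kap_eq (agree_rev H) r

theorem zt_eq (H : Agree D D' h h' x) (l : ZMod M) : zt h x l = zt h' x l := by
  simp [zt, H.h]

theorem nbO {n : ℕ} (H : AgreeN D D' h h' (n + 1) x) {y : V} (hy : y ∈ outN D'.O x) :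
    AgreeN D D' h h' n y := by
  rw [← outO_eq H.1] at hy
  exact H.2 y (Or.inr (Or.inr (Or.inl (by simpa [outN] using hy))))

theorem nbR {n : ℕ} (H : AgreeN D D' h h' (n + 1) x) {y : V} (hy : y ∈ outN D'.R x) :
    AgreeN D D' h h' n y := by
  rw [← outR_eq H.1] at hy
  exact H.2 y (Or.inl (by simpa [outN] using hy))

end basics

theorem lc_ER : Lc (V := V) (M := M) 1 fER := by
  intro D D' h h' x H a A
  have H0 := agreeN_agree H
  unfold fER
  rw [Z_eq H0, outR_eq H0, H0.I]
  refine congrArg _ (Finset.sum_congr rfl fun y hy => Finset.sum_congr rfl fun i _ => ?_)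
  exact zt_eq (nbR (n := 0) H hy) _

theorem lc_EO : Lc (V := V) (M := M) 1 fEO := by
  intro D D' h h' x H a A
  have H0 := agreeN_agree H
  unfold fEO
  rw [Z_eq H0, outO_eq H0, H0.I]
  refine congrArg _ (Finset.sum_congr rfl fun y hy => Finset.sum_congr rfl fun i _ => ?_)
  rw [(H0.β y).1, zt_eq (nbO (n := 0) H (Finset.mem_sdiff.1 hy).1)]

theorem lc_F : Lc (V := V) (M := M) 0 fF := by
  intro D D' h h' x H a A
  have H0 := agreeN_agree H
  unfold fF
  rw [H0.f.1, H0.s]

theorem lc_L {n r : ℕ} {F : Fld V M} (HF : Lc n F) : Lc (n + 1) (opL r F) := by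
  intro D D' h h' x H a A
  have H0 := agreeN_agree H
  unfold opL
  rw [Z_eq H0, outO_eq H0, H0.I, kap_eq H0]
  refine congrArg _ (Finset.sum_congr rfl fun y hy => Finset.sum_congr rfl fun i _ => ?_)
  rw [zt_eq (agreeN_agree (nbO H (Finset.mem_sdiff.1 hy).1)),
    HF D D' h h' x (agreeN_pred n H)]

theorem lc_P {n r : ℕ} {F : Fld V M} (HF : Lc n F) : Lc (n + 1) (opP r F) := by
  intro D D' h h' x H a A
  have H0 := agreeN_agree H
  unfold opP
  rw [Z_eq H0, outO_eq H0, H0.I]
  refine congrArg _ (Finset.sum_congr rfl fun y hy => Finset.sum_congr rfl fun i _ => ?_)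
  have hy' := nbO H (Finset.mem_sdiff.1 hy).1
  rw [rkap_eq (agreeN_agree hy'), HF D.rev D'.rev (-h) (-h') y (agreeN_rev n hy')]

theorem lc_U {n r : ℕ} {F : Fld V M} (HF : Lc n F) : Lc (n + 1) (opU r F) := by
  intro D D' h h' x H a A
  have H0 := agreeN_agree H
  unfold opU
  rw [Z_eq H0, outO_eq H0, H0.I]
  refine congrArg _ (Finset.sum_congr rfl fun y hy => Finset.sum_congr rfl fun i _ => ?_)
  have hy' := nbO H (Finset.mem_sdiff.1 hy).1
  rw [rkap_eq (agreeN_agree hy'), zt_eq (agreeN_agree hy'),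
    HF D.rev D'.rev (-h) (-h') y (agreeN_rev n hy')]

theorem lc_T {n : ℕ} {F : Fld V M} (HF : Lc n F) : Lc n (opT F) := by
  intro D D' h h' x H a A
  have H0 := agreeN_agree H
  unfold opT
  rw [rho_eq H0]
  exact Finset.sum_congr rfl fun j _ => HF D D' h h' x H _ _

theorem lc_Tw {n : ℕ} (q : ℕ) {F : Fld V M} (HF : Lc n F) : Lc n (opTw q F) := by
  intro D D' h h' x H a A
  have H0 := agreeN_agree H
  unfold opTw
  rw [rho_eq H0]
  exact Finset.sum_congr rfl fun j _ => by rw [HF D D' h h' x H]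

theorem lc_W {n : ℕ} (q : ℕ) {F : Fld V M} (HF : Lc n F) : Lc n (opW q F) := by
  intro D D' h h' x H a A
  have H0 := agreeN_agree H
  unfold opW
  rw [rho_eq H0]
  exact congrArg _ (Finset.sum_congr rfl fun j _ => by rw [HF D D' h h' x H])

theorem lc_Lam {n r : ℕ} {T : Fld V M} (HT : Lc n T) : Lc (n + 1) (opLam r T) := by
  intro D D' h h' x H a A
  have H0 := agreeN_agree H
  unfold opLam
  rw [Z_eq H0, outO_eq H0, H0.I, kap_eq H0, H0.i1, H0.i2, rho_eq H0]
  refine congrArg _ (Finset.sum_congr rfl fun y hy => ?_)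
  have hy' := nbO H (Finset.mem_sdiff.1 hy).1
  rw [zt_eq (agreeN_agree hy'), zt_eq (agreeN_agree hy'),
    HT D D' h h' x (agreeN_pred n H), HT D D' h h' x (agreeN_pred n H)]

theorem lc_Ups {n r : ℕ} {T : Fld V M} (HT : Lc n T) : Lc (n + 1) (opUps r T) := by
  intro D D' h h' x H a A
  have H0 := agreeN_agree H
  unfold opUps
  rw [Z_eq H0, outO_eq H0, H0.I, H0.i1, H0.i2]
  refine congrArg _ (Finset.sum_congr rfl fun y hy => ?_)
  have hy' := nbO H (Finset.mem_sdiff.1 hy).1
  rw [rkap_eq (agreeN_agree hy'), zt_eq (agreeN_agree hy'), zt_eq (agreeN_agree hy'),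
    HT D.rev D'.rev (-h) (-h') y (agreeN_rev n hy')]

/-- the radius of a word -/
def dep : Wd → ℕ
  | .eR => 1
  | .eO => 1
  | .f => 0
  | .lam => 3
  | .ups => 3
  | .L w => dep w + 1
  | .U w => dep w + 1
  | .P w => dep w + 1

theorem lc_gE : Lc (V := V) (M := M) 2 gE := by
  intro D D' h h' x H a A
  unfold gE
  rw [lc_P (r := 0) lc_ER D D' h h' x H, lc_P (r := 1) lc_EO D D' h h' x H]

theorem lc_fld (w : Wd) : Lc (V := V) (M := M) (dep w) (fld w) := by
  induction w with
  | eR => exact lc_ER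
  | eO => exact lc_EO
  | f => exact lc_F
  | lam => exact lc_Lam (lc_T lc_gE)
  | ups => exact lc_Ups (lc_T lc_gE)
  | L w ih => exact lc_L ih
  | U w ih => exact lc_U ih
  | P w ih => exact lc_P ih

theorem lc_sum {n : ℕ} (l : List Wd) (hl : ∀ w ∈ l, dep w ≤ n) :
    Lc (V := V) (M := M) n (sumF l) := by
  intro D D' h h' x H a A
  unfold sumF
  refine congrArg _ (List.map_congr_left fun w hw => ?_)
  exact lc_fld w D D' h h' x (agreeN_mono (hl w hw) H) a A

theorem lc_g2 : Lc (V := V) (M := M) 3 g2 := by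
  apply lc_sum
  simp [W2', LU, W1, dep]

theorem lc_flx {n r : ℕ} {T : Fld V M} (HT : Lc n T) {D D' : Dat V M} {h h' : V → ZMod M}
    {x : V} (H : AgreeN D D' h h' n x) (y : V) (a i : ZMod M) :
    flx r T D h x y a i = flx r T D' h' x y a i := by
  have H0 := agreeN_agree H
  unfold flx
  rw [H0.I, kap_eq H0, H0.i1, H0.i2, rho_eq H0, HT D D' h h' x H, HT D D' h h' x H]

theorem loc : LOCStmt := by
  intro V _ M q D D' h h' x H
  have H0 := agreeN_agree H
  have h5 : ∀ w ∈ W5, dep w ≤ 8 := by simp [W5, W4, W3, W2, W2', W1, LU, dep]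
  have h3P : ∀ w ∈ W3.map Wd.P, dep w ≤ 8 := by simp [W3, W2, W2', W1, LU, dep]
  have h4P : ∀ w ∈ W4.map Wd.P, dep w ≤ 8 := by simp [W4, W3, W2, W2', W1, LU, dep]
  have hown : ∀ w ∈ Wown, dep w ≤ 8 := by simp [Wown, W4, W3, W2, W2', W1, LU, dep]
  constructor
  · unfold err
    rw [lc_sum W5 h5 D D' h h' x H, lc_sum _ h3P D D' h h' x H, lc_sum _ h4P D D' h h' x H,
      lc_fld (.P .f) D D' h h' x (agreeN_mono (by simp [dep]) H),
      lc_W q lc_g2 D D' h h' x (agreeN_mono (by norm_num) H),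
      lc_Lam (lc_Tw q lc_g2) D D' h h' x (agreeN_mono (by norm_num) H),
      lc_Ups (lc_Tw q lc_g2) D D' h h' x (agreeN_mono (by norm_num) H), H0.h]
  · intro y hy
    have hy' : AgreeN D D' h h' 7 y := H.2 y (Or.inr (Or.inr (Or.inl hy)))
    unfold half
    rw [H0.h, (agreeN_agree hy').h,
      lc_flx (lc_T lc_gE) (agreeN_mono (by norm_num) H),
      lc_flx (lc_Tw q lc_g2) (agreeN_mono (by norm_num) H)]
    congr 2
    refine congrArg _ (List.map_congr_left fun w hw => ?_)
    rw [kap_eq H0, lc_fld w D D' h h' x (agreeN_mono (hown w hw) H)]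

end Pool.Agent.C4W.H31
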